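import Mathlib

/-!
Conflict-free colourings of hypergraphs of bounded degree: definitions and the step from
degree `D` to degree `D + 1`.
-/

namespace Pool.Agent.H762R3.CF

open Finset

/-- `c` is a conflict-free colouring of the hypergraph with edge set `E`: every edge has a vertex
whose colour is used by no other vertex of the edge. -/
def IsCF {V K : Type} (E : Finset (Finset V)) (c : V → K) : Prop :=
  ∀ e ∈ E, ∃ v ∈ e, ∀ w ∈ e, c w = c v → w = v

/-- Every vertex lies in at most `D` edges. -/
def DegLe {V : Type} [DecidableEq V] (E : Finset (Finset V)) (D : ℕ) : Prop :=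
  ∀ v : V, (E.filter (fun e => v ∈ e)).card ≤ D

/-- All edges have exactly `r` vertices. -/
def Unif {V : Type} (E : Finset (Finset V)) (r : ℕ) : Prop := ∀ e ∈ E, e.card = r

/-- Every `r`-uniform hypergraph of maximum degree at most `D` has a conflict-free colouring
with `D` colours. -/
def Good (r D : ℕ) : Prop :=
  ∀ (n : ℕ) (E : Finset (Finset (Fin n))), Unif E r → DegLe E D → ∃ c : Fin n → Fin D, IsCF E c

theorem good_succ {r D : ℕ} (h : Good r D) : Good r (D + 1) := by
  classical
  intro n E hU hD
  -- a maximal strongly independent set
  let P : Finset (Fin n) → Prop := fun X => ∀ e ∈ E, (e ∩ X).card ≤ 1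
  have hfin : ((Finset.univ : Finset (Finset (Fin n))).filter P).Nonempty :=
    ⟨∅, by simp [P]⟩
  obtain ⟨X, hX, hmax⟩ := Finset.exists_max_image
    ((Finset.univ : Finset (Finset (Fin n))).filter P) Finset.card hfin
  have hPX : P X := (Finset.mem_filter.1 hX).2
  let E' := E.filter (fun e => e ∩ X = ∅)
  have hU' : Unif E' r := fun e he => hU e (Finset.mem_filter.1 he).1
  have hD' : DegLe E' D := by
    intro v
    by_cases hv : v ∈ X
    · have : E'.filter (fun e => v ∈ e) = ∅ := by
        rw [Finset.filter_eq_empty_iff]
        intro e he hve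
        have h1 := (Finset.mem_filter.1 he).2
        have h2 : v ∈ e ∩ X := Finset.mem_inter.2 ⟨hve, hv⟩
        rw [h1] at h2
        exact absurd h2 (Finset.notMem_empty v)
      rw [this]
      simp
    · -- by maximality some edge at v meets X
      have hnot : ¬ P (insert v X) := by
        intro hP
        have := hmax (insert v X) (by simp [hP])
        rw [Finset.card_insert_of_notMem hv] at this
        omega
      simp only [P, not_forall] at hnot
      obtain ⟨e, he, hcard⟩ := hnot
      have hve : v ∈ e := by
        by_contra hve
        have : e ∩ insert v X = e ∩ X := by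
          ext w
          simp only [Finset.mem_inter, Finset.mem_insert]
          constructor
          · rintro ⟨h1, h2 | h2⟩
            · exact absurd (h2 ▸ h1) hve
            · exact ⟨h1, h2⟩
          · rintro ⟨h1, h2⟩
            exact ⟨h1, Or.inr h2⟩
        rw [this] at hcard
        exact hcard (hPX e he)
      have hne : e ∩ X ≠ ∅ := by
        intro h0
        apply hcard
        have : e ∩ insert v X ⊆ {v} := by
          intro w hw
          rw [Finset.mem_inter, Finset.mem_insert] at hw
          rcases hw.2 with h1 | h1
          · simp [h1]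
          · have : w ∈ e ∩ X := Finset.mem_inter.2 ⟨hw.1, h1⟩
            rw [h0] at this
            exact absurd this (Finset.notMem_empty w)
        calc (e ∩ insert v X).card ≤ ({v} : Finset (Fin n)).card := Finset.card_le_card this
          _ = 1 := by simp
      have hsub : E'.filter (fun e => v ∈ e) ⊆ (E.filter (fun e => v ∈ e)).erase e := by
        intro f hf
        rw [Finset.mem_filter] at hf
        have hf1 := Finset.mem_filter.1 hf.1
        rw [Finset.mem_erase]
        refine ⟨?_, by simp [hf1.1, hf.2]⟩
        intro hfe
        exact hne (hfe ▸ hf1.2)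
      have h1 := Finset.card_le_card hsub
      rw [Finset.card_erase_of_mem (by simp [he, hve])] at h1
      have h2 := hD v
      omega
  obtain ⟨c', hc'⟩ := h n E' hU' hD'
  refine ⟨fun v => if v ∈ X then Fin.last D else (c' v).castSucc, ?_⟩
  intro e he
  by_cases h0 : e ∩ X = ∅
  · obtain ⟨v, hve, hv⟩ := hc' e (by simp [E', he, h0])
    have hout : ∀ w ∈ e, w ∉ X := by
      intro w hw hwX
      have : w ∈ e ∩ X := Finset.mem_inter.2 ⟨hw, hwX⟩
      rw [h0] at this
      exact absurd this (Finset.notMem_empty w)
    refine ⟨v, hve, ?_⟩
    intro w hw hcw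
    simp only [hout w hw, hout v hve, if_false] at hcw
    exact hv w hw (Fin.castSucc_injective D hcw)
  · obtain ⟨v, hv⟩ := Finset.nonempty_iff_ne_empty.2 h0
    have hv' := Finset.mem_inter.1 hv
    refine ⟨v, hv'.1, ?_⟩
    intro w hw hcw
    have hwX : w ∈ X := by
      by_contra hwX
      simp only [hwX, hv'.2, if_true, if_false] at hcw
      exact absurd hcw (Fin.castSucc_ne_last _)
    have h1 := hPX e he
    rw [Finset.card_le_one] at h1
    exact h1 w (Finset.mem_inter.2 ⟨hw, hwX⟩) v hv

theorem good_mono {r D D' : ℕ} (h : Good r D) (hD : D ≤ D') : Good r D' := by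
  induction D', hD using Nat.le_induction with
  | base => exact h
  | succ m _ ih => exact good_succ ih

end Pool.Agent.H762R3.CF
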