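import Mathlib
import Pool.Agent.Helper635.LLL

/-!
Counting lemmas for functions on a finite set.
-/

namespace Pool.Agent.H762R3.CF

open Finset Pool.Agent.Helper635.LLL
open Classical

variable {n : ℕ}

/-- number of functions with prescribed value sets -/
theorem cnt_pi {C : Type} [Fintype C] (g : Fin n → Finset C) :
    cnt (fun ω : Fin n → C => ∀ v, ω v ∈ g v) = ∏ v, (g v).card := by
  unfold cnt ev
  rw [← Fintype.card_piFinset]
  congr 1
  ext ω
  simp [Fintype.mem_piFinset]

end Pool.Agent.H762R3.CF
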