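import Mathlib
import Pool.Agent.H762R3.CF.Prob

/-!
Colourings of a finite set in which none of `k` special colours is used exactly once:
an upper bound through exponential generating functions.
-/

namespace Pool.Agent.H762R3.CF

open Finset Pool.Agent.Helper635.LLL
open Classical

variable {n : ℕ}

/-- colourings of `e` with colours `A`, no colour of `K` used exactly once -/
noncomputable def GG (e0 : Finset (Fin n)) (U K A : Finset ℕ) (e : Finset (Fin n)) :
    Finset (Fin n → ℕ) :=
  (Fintype.piFinset (fun v => if v ∈ e then A else if v ∈ e0 then {0} else U)).filter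
    (fun ω => ∀ i ∈ A, i ∈ K → (e.filter (fun v => ω v = i)).card ≠ 1)

theorem GG_insert (e0 : Finset (Fin n)) (U K A : Finset ℕ) (a : ℕ) (ha : a ∉ A)
    (e : Finset (Fin n)) (he : e ⊆ e0) :
    (GG e0 U K (insert a A) e).card ≤
      ∑ B ∈ e.powerset.filter (fun B => a ∈ K → B.card ≠ 1), (GG e0 U K A (e \ B)).card := by
  rw [Finset.card_eq_sum_card_fiberwise (f := fun ω : Fin n → ℕ => e.filter (fun v => ω v = a))
    (t := e.powerset.filter (fun B => a ∈ K → B.card ≠ 1))]
  · refine Finset.sum_le_sum fun B _ => ?_
    refine Finset.card_le_card_of_injOn (fun ω v => if v ∈ B then 0 else ω v) ?_ ?_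
    · intro ω hω
      rw [Finset.mem_coe, Finset.mem_filter] at hω
      obtain ⟨hω1, hωB⟩ := hω
      rw [GG, Finset.mem_filter, Fintype.mem_piFinset] at hω1
      obtain ⟨hpi, hcond⟩ := hω1
      have hBe : B ⊆ e := by rw [← hωB]; exact Finset.filter_subset _ _
      have hBm : ∀ v, v ∈ B ↔ v ∈ e ∧ ω v = a := by
        intro v; rw [← hωB, Finset.mem_filter]
      rw [Finset.mem_coe, GG, Finset.mem_filter, Fintype.mem_piFinset]
      refine ⟨?_, ?_⟩
      · intro v
        have hv := hpi v
        by_cases hvB : v ∈ B
        · have hve : v ∈ e := hBe hvB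
          have : v ∉ e \ B := by simp [hvB]
          simp [this, he hve, hvB]
        · by_cases hve : v ∈ e
          · have hne : ω v ≠ a := fun h => hvB ((hBm v).2 ⟨hve, h⟩)
            have hmem : v ∈ e \ B := by simp [hve, hvB]
            rw [if_pos hve, Finset.mem_insert] at hv
            rw [if_pos hmem]
            beta_reduce
            rw [if_neg hvB]
            exact hv.resolve_left hne
          · have hmem : v ∉ e \ B := by simp [hve]
            rw [if_neg hve] at hv
            rw [if_neg hmem]
            beta_reduce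
            rw [if_neg hvB]
            exact hv
      · intro i hi hiK
        have hia : i ≠ a := fun h => ha (h ▸ hi)
        have heq : (e \ B).filter (fun v => (if v ∈ B then 0 else ω v) = i)
            = e.filter (fun v => ω v = i) := by
          ext v
          simp only [Finset.mem_filter, Finset.mem_sdiff]
          constructor
          · rintro ⟨⟨h1, h2⟩, h3⟩
            rw [if_neg h2] at h3
            exact ⟨h1, h3⟩
          · rintro ⟨h1, h2⟩
            have h3 : v ∉ B := fun h => hia (h2.symm.trans ((hBm v).1 h).2)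
            exact ⟨⟨h1, h3⟩, by rw [if_neg h3]; exact h2⟩
        rw [heq]
        exact hcond i (Finset.mem_insert_of_mem hi) hiK
    · intro ω1 h1 ω2 h2 heq
      rw [Finset.mem_coe, Finset.mem_filter] at h1 h2
      funext v
      by_cases hv : v ∈ B
      · have e1 := hv
        have e2 := hv
        rw [← h1.2, Finset.mem_filter] at e1
        rw [← h2.2, Finset.mem_filter] at e2
        rw [e1.2, e2.2]
      · have := congrFun heq v
        simpa [hv] using this
  · intro ω hω
    rw [Finset.mem_coe] at hω ⊢
    rw [GG, Finset.mem_filter] at hω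
    rw [Finset.mem_filter, Finset.mem_powerset]
    exact ⟨Finset.filter_subset _ _, fun haK => hω.2 a (Finset.mem_insert_self a A) haK⟩

/-- weight of a colour -/
noncomputable def wt (K : Finset ℕ) (z : ℝ) (a : ℕ) : ℝ :=
  if a ∈ K then Real.exp z - z else Real.exp z

theorem wt_nonneg (K : Finset ℕ) (z : ℝ) (a : ℕ) : 0 ≤ wt K z a := by
  unfold wt
  split_ifs
  · linarith [Real.add_one_le_exp z]
  · exact (Real.exp_pos z).le

theorem sum_ok (K : Finset ℕ) (z : ℝ) (hz : 0 < z) (a s : ℕ) :
    ∑ j ∈ Finset.range (s + 1), (if (a ∈ K → j ≠ 1) then z ^ j / (j.factorial : ℝ) else 0)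
      ≤ wt K z a := by
  unfold wt
  by_cases ha : a ∈ K
  · rw [if_pos ha]
    rcases Nat.eq_zero_or_pos s with hs | hs
    · subst hs
      simp
      linarith [Real.add_one_le_exp z]
    · have h1 := Real.sum_le_exp_of_nonneg hz.le (s + 1)
      have h2 : ∑ j ∈ Finset.range (s + 1), (if (a ∈ K → j ≠ 1) then z ^ j / (j.factorial : ℝ) else 0)
          = ∑ j ∈ Finset.range (s + 1), z ^ j / (j.factorial : ℝ) - z := by
        rw [eq_sub_iff_add_eq]
        have h3 : ∑ j ∈ Finset.range (s + 1), (if j = 1 then z ^ j / (j.factorial : ℝ) else 0)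
            = z := by
          rw [Finset.sum_ite_eq' (Finset.range (s + 1)) 1 (fun j => z ^ j / (j.factorial : ℝ))]
          rw [if_pos (Finset.mem_range.2 (by omega))]
          simp
        have h4 : ∑ j ∈ Finset.range (s + 1), (if (a ∈ K → j ≠ 1) then z ^ j / (j.factorial : ℝ) else 0)
            + ∑ j ∈ Finset.range (s + 1), (if j = 1 then z ^ j / (j.factorial : ℝ) else 0)
            = ∑ j ∈ Finset.range (s + 1), z ^ j / (j.factorial : ℝ) := by
          rw [← Finset.sum_add_distrib]
          refine Finset.sum_congr rfl fun j _ => ?_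
          by_cases hj : j = 1
          · simp [hj, ha]
          · simp [hj]
        rw [h3] at h4
        exact h4
      rw [h2]
      linarith
  · rw [if_neg ha]
    have h1 := Real.sum_le_exp_of_nonneg hz.le (s + 1)
    simpa [ha] using h1

theorem GG_bound (e0 : Finset (Fin n)) (U K : Finset ℕ) (z : ℝ) (hz : 0 < z) (A : Finset ℕ) :
    ∀ e ⊆ e0, ((GG e0 U K A e).card : ℝ) ≤
      ((e.card.factorial : ℝ) / z ^ e.card) * (∏ a ∈ A, wt K z a) *
        (U.card : ℝ) ^ (n - e0.card) := by
  induction A using Finset.induction_on with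
  | empty =>
    intro e he
    rcases e.eq_empty_or_nonempty with h0 | ⟨v, hv⟩
    · subst h0
      have h1 : (GG e0 U K ∅ ∅).card ≤ U.card ^ (n - e0.card) := by
        unfold GG
        refine (Finset.card_filter_le _ _).trans ?_
        rw [Fintype.card_piFinset]
        have h2 : ∀ v : Fin n, (if v ∈ (∅ : Finset (Fin n)) then (∅ : Finset ℕ) else
            if v ∈ e0 then {0} else U).card = (if v ∈ e0ᶜ then U.card else 1) := by
          intro v
          by_cases h : v ∈ e0 <;> simp [h]
        rw [Finset.prod_congr rfl fun v _ => h2 v, Finset.prod_ite_mem, Finset.univ_inter,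
          Finset.prod_const, Finset.card_compl, Fintype.card_fin]
      simp only [Finset.card_empty, Nat.factorial_zero, Nat.cast_one, pow_zero, div_one,
        Finset.prod_empty, mul_one, one_mul]
      exact_mod_cast h1
    · have h1 : GG e0 U K ∅ e = ∅ := by
        unfold GG
        rw [Finset.filter_eq_empty_iff]
        intro ω hω
        rw [Fintype.mem_piFinset] at hω
        have := hω v
        rw [if_pos hv] at this
        exact absurd this (Finset.notMem_empty _)
      rw [h1]
      simp only [Finset.card_empty, Nat.cast_zero]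
      positivity
  | insert a A ha ih =>
    intro e he
    have h1 := GG_insert e0 U K A a ha e he
    have hP : 0 ≤ ∏ a ∈ A, wt K z a := Finset.prod_nonneg fun a _ => wt_nonneg K z a
    set s := e.card with hs
    set Φ := ∏ a ∈ A, wt K z a with hΦ
    set W := (U.card : ℝ) ^ (n - e0.card) with hW
    have hW0 : 0 ≤ W := by positivity
    have h2 : ((GG e0 U K (insert a A) e).card : ℝ) ≤
        ∑ B ∈ e.powerset.filter (fun B => a ∈ K → B.card ≠ 1),
          (((e \ B).card.factorial : ℝ) / z ^ (e \ B).card) * Φ * W := by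
      refine (by exact_mod_cast h1 : ((GG e0 U K (insert a A) e).card : ℝ) ≤
        ∑ B ∈ e.powerset.filter (fun B => a ∈ K → B.card ≠ 1),
          ((GG e0 U K A (e \ B)).card : ℝ)).trans ?_
      exact Finset.sum_le_sum fun B _ => ih (e \ B) (Finset.sdiff_subset.trans he)
    refine h2.trans ?_
    let F : ℕ → ℝ := fun j => (if (a ∈ K → j ≠ 1) then ((s - j).factorial : ℝ) / z ^ (s - j) else 0)
      * Φ * W
    have h3 : ∑ B ∈ e.powerset.filter (fun B => a ∈ K → B.card ≠ 1),
          (((e \ B).card.factorial : ℝ) / z ^ (e \ B).card) * Φ * W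
        = ∑ j ∈ Finset.range (s + 1), (s.choose j : ℝ) * F j := by
      rw [Finset.sum_filter]
      have h4 : ∑ B ∈ e.powerset, (if (a ∈ K → B.card ≠ 1) then
          (((e \ B).card.factorial : ℝ) / z ^ (e \ B).card) * Φ * W else 0)
          = ∑ B ∈ e.powerset, F B.card := by
        refine Finset.sum_congr rfl fun B hB => ?_
        have hBe := Finset.mem_powerset.1 hB
        simp only [F]
        rw [Finset.card_sdiff_of_subset hBe]
        split_ifs <;> simp [hs]
      rw [h4, Finset.sum_powerset_apply_card]
      refine Finset.sum_congr rfl fun j _ => ?_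
      rw [nsmul_eq_mul]
    rw [h3]
    have h5 : ∀ j ∈ Finset.range (s + 1), (s.choose j : ℝ) * F j
        = ((s.factorial : ℝ) / z ^ s) * ((if (a ∈ K → j ≠ 1) then z ^ j / (j.factorial : ℝ) else 0)
          * (Φ * W)) := by
      intro j hj
      have hjs : j ≤ s := by
        have := Finset.mem_range.1 hj
        omega
      simp only [F]
      by_cases hc : (a ∈ K → j ≠ 1)
      · rw [if_pos hc, if_pos hc]
        have h6 : (s.choose j : ℝ) * (j.factorial : ℝ) * ((s - j).factorial : ℝ) = (s.factorial : ℝ) := by
          exact_mod_cast Nat.choose_mul_factorial_mul_factorial hjs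
        have h7 : z ^ s = z ^ j * z ^ (s - j) := by
          rw [← pow_add]; congr 1; omega
        have h8 : (j.factorial : ℝ) ≠ 0 := by exact_mod_cast j.factorial_ne_zero
        have h9 : z ^ j ≠ 0 := by positivity
        have h10 : z ^ (s - j) ≠ 0 := by positivity
        rw [h7, ← h6]
        field_simp
      · rw [if_neg hc, if_neg hc]
        ring
    rw [Finset.sum_congr rfl h5, ← Finset.mul_sum, ← Finset.sum_mul, Finset.prod_insert ha]
    have h11 := sum_ok K z hz a s
    have h12 : 0 ≤ (s.factorial : ℝ) / z ^ s := by positivity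
    calc (s.factorial : ℝ) / z ^ s * ((∑ j ∈ Finset.range (s + 1),
            (if (a ∈ K → j ≠ 1) then z ^ j / (j.factorial : ℝ) else 0)) * (Φ * W))
        ≤ (s.factorial : ℝ) / z ^ s * (wt K z a * (Φ * W)) := by
          refine mul_le_mul_of_nonneg_left ?_ h12
          exact mul_le_mul_of_nonneg_right h11 (mul_nonneg hP hW0)
      _ = (s.factorial : ℝ) / z ^ s * (wt K z a * Φ) * W := by ring

/-- upper bound for the number of functions with no value below `k` taken exactly once on `e` -/
theorem cnt_egf (k N : ℕ) (hk : k ≤ N) (e : Finset (Fin n)) (z : ℝ) (hz : 0 < z) :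
    (cnt (fun ω : Fin n → Fin N => ∀ i < k, ¬ (e.filter (fun v => (ω v).val = i)).card = 1) : ℝ) ≤
      ((e.card.factorial : ℝ) / z ^ e.card) * ((Real.exp z - z) ^ k * Real.exp z ^ (N - k)) *
        (N : ℝ) ^ (n - e.card) := by
  have h1 := GG_bound e (Finset.range N) (Finset.range k) z hz (Finset.range N) e
    (Finset.Subset.refl e)
  have h2 : ∏ a ∈ Finset.range N, wt (Finset.range k) z a
      = (Real.exp z - z) ^ k * Real.exp z ^ (N - k) := by
    unfold wt
    rw [Finset.prod_ite, Finset.prod_const, Finset.prod_const]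
    congr 2
    · have : (Finset.range N).filter (fun a => a ∈ Finset.range k) = Finset.range k := by
        ext a; simp only [Finset.mem_filter, Finset.mem_range]; omega
      rw [this, Finset.card_range]
    · have : (Finset.range N).filter (fun a => a ∉ Finset.range k) = Finset.Ico k N := by
        ext a; simp only [Finset.mem_filter, Finset.mem_range, Finset.mem_Ico]; omega
      rw [this, Nat.card_Ico]
  rw [h2, Finset.card_range] at h1
  refine le_trans ?_ h1
  have h3 : cnt (fun ω : Fin n → Fin N => ∀ i < k, ¬ (e.filter (fun v => (ω v).val = i)).card = 1) ≤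
      (GG e (Finset.range N) (Finset.range k) (Finset.range N) e).card := by
    unfold cnt
    refine Finset.card_le_card_of_injOn (fun ω v => (ω v).val) ?_ ?_
    · intro ω hω
      rw [Finset.mem_coe, mem_ev] at hω
      rw [Finset.mem_coe, GG, Finset.mem_filter, Fintype.mem_piFinset]
      refine ⟨?_, ?_⟩
      · intro v
        by_cases hv : v ∈ e
        · simp [hv]
        · simp [hv]
      · intro i _ hi
        exact hω i (Finset.mem_range.1 hi)
    · intro ω1 _ ω2 _ heq
      funext v
      exact Fin.ext (congrFun heq v)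
  exact_mod_cast h3

theorem fact_bound (s : ℕ) (hs : 1 ≤ s) :
    (s.factorial : ℝ) * Real.exp s ≤ Real.exp 1 * s * (s : ℝ) ^ s := by
  induction s, hs using Nat.le_induction with
  | base => simp
  | succ m hm ih =>
    have hm0 : (0 : ℝ) < m := by exact_mod_cast hm
    have h1 : Real.exp 1 * (m : ℝ) ^ (m + 1) ≤ ((m : ℝ) + 1) ^ (m + 1) := by
      have h2 := Real.one_sub_inv_le_log_of_pos (x := ((m : ℝ) + 1) / m) (by positivity)
      have h3 : 1 - (((m : ℝ) + 1) / m)⁻¹ = 1 / ((m : ℝ) + 1) := by
        field_simp
        ring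
      rw [h3] at h2
      have h4 : (1 : ℝ) ≤ Real.log ((((m : ℝ) + 1) / m) ^ (m + 1)) := by
        rw [Real.log_pow]
        push_cast
        rw [div_le_iff₀ (by positivity)] at h2
        linarith
      have h5 : Real.exp 1 ≤ (((m : ℝ) + 1) / m) ^ (m + 1) := by
        rw [← Real.exp_log (show (0 : ℝ) < (((m : ℝ) + 1) / m) ^ (m + 1) by positivity)]
        exact Real.exp_le_exp.2 h4
      rw [div_pow, le_div_iff₀ (by positivity)] at h5
      exact h5
    rw [Nat.factorial_succ]
    push_cast
    rw [Real.exp_add]
    calc ((m : ℝ) + 1) * (m.factorial : ℝ) * (Real.exp m * Real.exp 1)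
        = ((m : ℝ) + 1) * Real.exp 1 * ((m.factorial : ℝ) * Real.exp m) := by ring
      _ ≤ ((m : ℝ) + 1) * Real.exp 1 * (Real.exp 1 * m * (m : ℝ) ^ m) := by gcongr
      _ = ((m : ℝ) + 1) * Real.exp 1 * (Real.exp 1 * (m : ℝ) ^ (m + 1)) := by ring
      _ ≤ ((m : ℝ) + 1) * Real.exp 1 * (((m : ℝ) + 1) ^ (m + 1)) := by gcongr
      _ = Real.exp 1 * ((m : ℝ) + 1) * ((m : ℝ) + 1) ^ (m + 1) := by ring

end Pool.Agent.H762R3.CF
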