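import Mathlib
import Pool.Agent.H762R3.CF.Basic
import Pool.Agent.H762R3.CF.Prob

/-!
Many colours: maximum degree `40 * r`.
-/

namespace Pool.Agent.H762R3.CF

open Finset Pool.Agent.Helper635.LLL
open Classical

theorem numA : ∀ h ≥ 3, 640 * h ^ 2 * 3 ^ h ≤ 80 ^ h := by
  intro h hh
  induction h, hh using Nat.le_induction with
  | base => norm_num
  | succ m hm ih =>
    have h1 : 3 * (m + 1) ^ 2 ≤ 80 * m ^ 2 := by nlinarith
    calc 640 * (m + 1) ^ 2 * 3 ^ (m + 1) = (640 * 3 ^ m) * (3 * (m + 1) ^ 2) := by ring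
      _ ≤ (640 * 3 ^ m) * (80 * m ^ 2) := Nat.mul_le_mul_left _ h1
      _ = (640 * m ^ 2 * 3 ^ m) * 80 := by ring
      _ ≤ 80 ^ m * 80 := Nat.mul_le_mul_right _ ih
      _ = 80 ^ (m + 1) := by ring

theorem numB : ∀ h ≥ 2, 160 * (2 * h + 1) ^ 2 * 3 ^ h ≤ 80 ^ (h + 1) := by
  intro h hh
  induction h, hh using Nat.le_induction with
  | base => norm_num
  | succ m hm ih =>
    have h1 : 3 * (2 * (m + 1) + 1) ^ 2 ≤ 80 * (2 * m + 1) ^ 2 := by nlinarith
    calc 160 * (2 * (m + 1) + 1) ^ 2 * 3 ^ (m + 1)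
        = (160 * 3 ^ m) * (3 * (2 * (m + 1) + 1) ^ 2) := by ring
      _ ≤ (160 * 3 ^ m) * (80 * (2 * m + 1) ^ 2) := Nat.mul_le_mul_left _ h1
      _ = (160 * (2 * m + 1) ^ 2 * 3 ^ m) * 80 := by ring
      _ ≤ 80 ^ (m + 1) * 80 := Nat.mul_le_mul_right _ ih
      _ = 80 ^ (m + 1 + 1) := by ring

theorem self_pow_le (h : ℕ) : h ^ h ≤ 3 ^ h * h.factorial := by
  have h1 := Real.pow_div_factorial_le_exp (h : ℝ) (by positivity) h
  have h2 : Real.exp (h : ℝ) ≤ 3 ^ h := by
    have : Real.exp (h : ℝ) = Real.exp 1 ^ h := by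
      rw [← Real.exp_nat_mul, mul_one]
    rw [this]
    exact pow_le_pow_left₀ (Real.exp_pos _).le (by linarith [Real.exp_one_lt_d9]) h
  have h3 : (0 : ℝ) < (h.factorial : ℝ) := by exact_mod_cast h.factorial_pos
  rw [div_le_iff₀ h3] at h1
  have : (h : ℝ) ^ h ≤ 3 ^ h * (h.factorial : ℝ) := h1.trans (by gcongr)
  exact_mod_cast this

theorem num_main (r : ℕ) (hr : 5 ≤ r) :
    ((40 * r).choose (r / 2)) * (r / 2) ^ r * (160 * r ^ 2) ≤ (40 * r) ^ r := by
  obtain ⟨h, hh⟩ : ∃ h, h = r / 2 := ⟨_, rfl⟩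
  rw [← hh]
  set N := 40 * r with hN
  have hfac : (0 : ℕ) < h.factorial := h.factorial_pos
  have hch : h.factorial * N.choose h ≤ N ^ h := by
    rw [← Nat.descFactorial_eq_factorial_mul_choose]
    exact Nat.descFactorial_le_pow N h
  have hkey : 3 ^ h * (160 * r ^ 2) ≤ 80 ^ (r - h) := by
    rcases Nat.even_or_odd' r with ⟨m, hm | hm⟩
    · have hm1 : h = m := by omega
      subst hm1
      have : r - h = h := by omega
      rw [this, hm]
      have := numA h (by omega)
      nlinarith [this]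
    · have hm1 : h = m := by omega
      subst hm1
      have : r - h = h + 1 := by omega
      rw [this, hm]
      have := numB h (by omega)
      nlinarith [this]
  have hsplit : ∀ x : ℕ, x ^ r = x ^ h * x ^ (r - h) := by
    intro x
    rw [← pow_add]; congr 1; omega
  have hpw : h ^ (r - h) * 80 ^ (r - h) ≤ N ^ (r - h) := by
    rw [← mul_pow]
    exact Nat.pow_le_pow_left (by omega) _
  refine Nat.le_of_mul_le_mul_left ?_ hfac
  calc h.factorial * (N.choose h * h ^ r * (160 * r ^ 2))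
      = (h.factorial * N.choose h) * (h ^ r * (160 * r ^ 2)) := by ring
    _ ≤ N ^ h * (h ^ r * (160 * r ^ 2)) := Nat.mul_le_mul_right _ hch
    _ = N ^ h * (h ^ h * h ^ (r - h) * (160 * r ^ 2)) := by rw [hsplit h]
    _ ≤ N ^ h * ((3 ^ h * h.factorial) * h ^ (r - h) * (160 * r ^ 2)) := by
        gcongr
        exact self_pow_le h
    _ = N ^ h * h.factorial * (h ^ (r - h) * (3 ^ h * (160 * r ^ 2))) := by ring
    _ ≤ N ^ h * h.factorial * (h ^ (r - h) * 80 ^ (r - h)) := by gcongr
    _ ≤ N ^ h * h.factorial * N ^ (r - h) := by gcongr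
    _ = h.factorial * N ^ r := by rw [hsplit N]; ring

variable {n : ℕ}

theorem cnt_bad (N : ℕ) (e : Finset (Fin n)) (hN : e.card / 2 ≤ N) :
    cnt (fun ω : Fin n → Fin N => ¬ ∃ v ∈ e, ∀ w ∈ e, ω w = ω v → w = v) ≤
      N.choose (e.card / 2) * ((e.card / 2) ^ e.card * N ^ (n - e.card)) := by
  have hsub : ev (fun ω : Fin n → Fin N => ¬ ∃ v ∈ e, ∀ w ∈ e, ω w = ω v → w = v) ⊆
      (Finset.powersetCard (e.card / 2) (Finset.univ : Finset (Fin N))).biUnion
        (fun A => ev (fun ω : Fin n → Fin N => ∀ v, ω v ∈ (if v ∈ e then A else Finset.univ))) := by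
    intro ω hω
    rw [mem_ev] at hω
    push Not at hω
    have h2 : 2 * (e.image ω).card ≤ e.card := by
      refine Finset.mul_card_image_le_card _ _ ?_
      intro c hc
      obtain ⟨v, hv, rfl⟩ := Finset.mem_image.1 hc
      obtain ⟨w, hw, hwv, hne⟩ := hω v hv
      have : ({v, w} : Finset (Fin n)) ⊆ e.filter (fun x => ω x = ω v) := by
        intro x hx
        rw [Finset.mem_insert, Finset.mem_singleton] at hx
        rcases hx with rfl | rfl
        · simp [hv]
        · simp [hw, hwv]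
      calc 2 = ({v, w} : Finset (Fin n)).card := by
            rw [Finset.card_pair (Ne.symm hne)]
        _ ≤ _ := Finset.card_le_card this
    obtain ⟨A, hA1, hA2⟩ := Finset.exists_superset_card_eq (s := e.image ω) (n := e.card / 2)
      (by omega) (by simpa using hN)
    rw [Finset.mem_biUnion]
    refine ⟨A, by simp [Finset.mem_powersetCard, hA2], ?_⟩
    rw [mem_ev]
    intro v
    by_cases hv : v ∈ e
    · rw [if_pos hv]
      exact hA1 (Finset.mem_image_of_mem ω hv)
    · rw [if_neg hv]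
      exact Finset.mem_univ _
  unfold cnt
  refine (Finset.card_le_card hsub).trans (Finset.card_biUnion_le.trans ?_)
  refine (Finset.sum_le_card_nsmul _ _ ((e.card / 2) ^ e.card * N ^ (n - e.card)) fun A hA => ?_).trans ?_
  · have hAc := (Finset.mem_powersetCard.1 hA).2
    have h0 := cnt_pi (C := Fin N) (fun v : Fin n => if v ∈ e then A else Finset.univ)
    unfold cnt at h0
    rw [h0]
    have h1 : ∀ v, (if v ∈ e then A else (Finset.univ : Finset (Fin N))).card
        = (if v ∈ e then (e.card / 2) else 1) * (if v ∈ eᶜ then N else 1) := by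
      intro v
      by_cases hv : v ∈ e
      · simp [hv, hAc]
      · simp [hv]
    rw [Finset.prod_congr rfl fun v _ => h1 v, Finset.prod_mul_distrib, Finset.prod_ite_mem,
      Finset.prod_ite_mem, Finset.univ_inter, Finset.univ_inter, Finset.prod_const,
      Finset.prod_const, Finset.card_compl, Fintype.card_fin]
  · simp

theorem nbr_card' (E : Finset (Finset (Fin n))) (D : ℕ) (hD : DegLe E D) (e : Finset (Fin n)) :
    (E.filter (fun g => ¬ Disjoint e g)).card ≤ e.card * D := by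
  have hsub : E.filter (fun g => ¬ Disjoint e g) ⊆
      e.biUnion (fun v => E.filter (fun g => v ∈ g)) := by
    intro g hg
    rw [Finset.mem_filter, Finset.not_disjoint_iff] at hg
    obtain ⟨hg, v, hv1, hv2⟩ := hg
    rw [Finset.mem_biUnion]
    exact ⟨v, hv1, Finset.mem_filter.2 ⟨hg, hv2⟩⟩
  refine (Finset.card_le_card hsub).trans (Finset.card_biUnion_le.trans ?_)
  refine (Finset.sum_le_card_nsmul _ _ D fun v _ => ?_).trans (by simp)
  convert hD v

theorem good_small (r : ℕ) (hr : 5 ≤ r) : Good r (40 * r) := by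
  intro n E hU hD
  let B : Finset (Fin n) → (Fin n → Fin (40 * r)) → Prop := fun e ω =>
    ¬ ∃ v ∈ e, ∀ w ∈ e, ω w = ω v → w = v
  have hNcard : Nat.card (Fin n → Fin (40 * r)) = (40 * r) ^ n := by simp
  have hdep : ∀ e ∈ E, Pool.Agent.Helper635.LLL.DependsOn (B e) e := by
    intro e _ ω ω' hag h hex
    apply h
    obtain ⟨v, hv, hv2⟩ := hex
    refine ⟨v, hv, fun w hw hww => hv2 w hw ?_⟩
    rw [← hag w hw, ← hag v hv]
    exact hww
  have hrr : (0 : ℝ) < (r : ℝ) := by exact_mod_cast (by omega : 0 < r)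
  have hprob : ∀ e ∈ E, (cnt (B e) : ℝ) ≤ (1 / (160 * (r : ℝ) ^ 2)) *
      (Nat.card (Fin n → Fin (40 * r)) : ℝ) := by
    intro e he
    have hc := hU e he
    have hn : r ≤ n := by
      rw [← hc]
      simpa using Finset.card_le_univ e
    have h1 := cnt_bad (40 * r) e (by omega)
    rw [hc] at h1
    have h2 := num_main r hr
    have h3 : cnt (B e) * (160 * r ^ 2) ≤ (40 * r) ^ n := by
      calc cnt (B e) * (160 * r ^ 2)
          ≤ ((40 * r).choose (r / 2) * ((r / 2) ^ r * (40 * r) ^ (n - r))) * (160 * r ^ 2) :=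
            Nat.mul_le_mul_right _ h1
        _ = ((40 * r).choose (r / 2) * (r / 2) ^ r * (160 * r ^ 2)) * (40 * r) ^ (n - r) := by ring
        _ ≤ (40 * r) ^ r * (40 * r) ^ (n - r) := Nat.mul_le_mul_right _ h2
        _ = (40 * r) ^ n := by rw [← pow_add]; congr 1; omega
    rw [hNcard]
    have h4 : (cnt (B e) : ℝ) * (160 * (r : ℝ) ^ 2) ≤ (((40 * r) ^ n : ℕ) : ℝ) := by
      exact_mod_cast h3
    have h5 : (0 : ℝ) < 160 * (r : ℝ) ^ 2 := by positivity
    rw [one_div, inv_mul_eq_div, le_div_iff₀ h5]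
    exact h4
  have hne : 0 < Nat.card (Fin n → Fin (40 * r)) := by
    rw [hNcard]
    exact pow_pos (by omega) n
  obtain ⟨ω, hω⟩ := lll E B (fun e => e) hdep (1 / (160 * (r : ℝ) ^ 2)) (r * (40 * r))
    (by positivity)
    (fun e he => by rw [Fintype.card_eq_nat_card]; exact hprob e he)
    (fun e he => by
      have h1 := nbr_card' E (40 * r) hD e
      rw [hU e he] at h1
      convert h1)
    (by
      push_cast
      have : (160 * (r : ℝ) ^ 2) ≠ 0 := by positivity
      have e1 : 4 * (1 / (160 * (r : ℝ) ^ 2)) * ((r : ℝ) * (40 * (r : ℝ))) = 1 := by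
        field_simp
        ring
      exact e1.le)
    (by nlinarith) (by rw [Fintype.card_eq_nat_card]; exact hne)
  refine ⟨ω, ?_⟩
  intro e he
  have := hω e he
  simpa only [B, not_not] using this

end Pool.Agent.H762R3.CF
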