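import Mathlib
import Pool.Agent.H762R3.CF.Basic
import Pool.Agent.H294R2.BF.L1

/-!
Splitting the vertex set into `2 ^ j` parts so that every edge is split almost evenly.
-/

namespace Pool.Agent.H762R3.CF

open Finset

theorem halve {n : ℕ} (E : Finset (Finset (Fin n))) (t : ℕ) (hD : DegLe E t)
    (P : Finset (Fin n)) :
    ∃ Q : Finset (Fin n), Q ⊆ P ∧ ∀ e ∈ E, 2 * (e ∩ Q).card ≤ (e ∩ P).card + t ∧
      (e ∩ P).card ≤ 2 * (e ∩ Q).card + t := by
  classical
  let idx : E ≃ Fin E.card := E.equivFin
  let A : Fin E.card → Fin n → ℝ := fun i j =>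
    if j ∈ ((idx.symm i : E) : Finset (Fin n)) ∧ j ∈ P then 1 else 0
  have hA : ∀ j, ∑ i, |A i j| ≤ (t : ℝ) := by
    intro j
    have h1 : ∑ i, |A i j| = ∑ e : E, (if j ∈ (e : Finset (Fin n)) ∧ j ∈ P then (1 : ℝ) else 0) := by
      rw [← Equiv.sum_comp idx.symm]
      refine Finset.sum_congr rfl fun i _ => ?_
      simp only [A]
      split_ifs <;> simp
    have h2 : ∑ e : E, (if j ∈ (e : Finset (Fin n)) ∧ j ∈ P then (1 : ℝ) else 0)
        = ∑ e ∈ E, (if j ∈ e ∧ j ∈ P then (1 : ℝ) else 0) :=
      Finset.sum_coe_sort E (fun e => if j ∈ e ∧ j ∈ P then (1 : ℝ) else 0)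
    rw [h1, h2]
    have h3 : ∑ e ∈ E, (if j ∈ e ∧ j ∈ P then (1 : ℝ) else 0)
        ≤ ∑ e ∈ E, (if j ∈ e then (1 : ℝ) else 0) := by
      refine Finset.sum_le_sum fun e _ => ?_
      by_cases h : j ∈ e
      · by_cases h' : j ∈ P <;> simp [h, h']
      · simp [h]
    refine h3.trans ?_
    rw [Finset.sum_boole]
    exact_mod_cast hD j
  obtain ⟨x, hx, hx2⟩ := H294BF.l1_signing A (t : ℝ) (by positivity) hA
  refine ⟨P.filter (fun v => x v = 1), Finset.filter_subset _ _, ?_⟩
  intro e he
  have hi := hx2 (idx ⟨e, he⟩)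
  have hsum : ∑ j, A (idx ⟨e, he⟩) j * x j
      = 2 * ((e ∩ P.filter (fun v => x v = 1)).card : ℝ) - ((e ∩ P).card : ℝ) := by
    have h1 : ∀ j, A (idx ⟨e, he⟩) j * x j
        = 2 * (if j ∈ e ∩ P.filter (fun v => x v = 1) then (1 : ℝ) else 0)
          - (if j ∈ e ∩ P then (1 : ℝ) else 0) := by
      intro j
      simp only [A, Equiv.symm_apply_apply, Finset.mem_inter, Finset.mem_filter]
      by_cases h1 : j ∈ e
      · by_cases h2 : j ∈ P
        · rcases hx j with h3 | h3
          · simp [h1, h2, h3]; norm_num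
          · have : ¬ ((-1 : ℝ) = 1) := by norm_num
            simp [h1, h2, h3, this]
        · simp [h1, h2]
      · simp [h1]
    have hf : ∀ B : Finset (Fin n), ∑ j, (if j ∈ B then (1 : ℝ) else 0) = B.card := by
      intro B
      rw [Finset.sum_boole, Finset.filter_mem_eq_inter, Finset.univ_inter]
    rw [Finset.sum_congr rfl fun j _ => h1 j, Finset.sum_sub_distrib, ← Finset.mul_sum, hf, hf]
  rw [hsum, abs_le] at hi
  constructor
  · have : (2 * ((e ∩ P.filter (fun v => x v = 1)).card : ℝ)) ≤ ((e ∩ P).card : ℝ) + t := by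
      linarith [hi.2]
    exact_mod_cast this
  · have : ((e ∩ P).card : ℝ) ≤ 2 * ((e ∩ P.filter (fun v => x v = 1)).card : ℝ) + t := by
      linarith [hi.1]
    exact_mod_cast this

theorem split {n : ℕ} (E : Finset (Finset (Fin n))) (t : ℕ) (hD : DegLe E t) (j : ℕ) :
    ∀ P : Finset (Fin n), ∃ f : Fin n → ℕ, (∀ v, f v < 2 ^ j) ∧ ∀ e ∈ E, ∀ i < 2 ^ j,
      2 ^ j * (e ∩ P.filter (fun v => f v = i)).card ≤ (e ∩ P).card + (2 ^ j - 1) * t ∧
      (e ∩ P).card ≤ 2 ^ j * (e ∩ P.filter (fun v => f v = i)).card + (2 ^ j - 1) * t := by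
  classical
  induction j with
  | zero =>
    intro P
    refine ⟨fun _ => 0, by simp, ?_⟩
    intro e he i hi
    have hi0 : i = 0 := by simpa using hi
    subst hi0
    simp
  | succ j ih =>
    intro P
    obtain ⟨Q, hQP, hQ⟩ := halve E t hD P
    obtain ⟨f1, hf1, hf1'⟩ := ih Q
    obtain ⟨f2, hf2, hf2'⟩ := ih (P \ Q)
    obtain ⟨M, hM⟩ : ∃ M, 2 ^ j = M + 1 := ⟨2 ^ j - 1, by have := Nat.one_le_two_pow (n := j); omega⟩
    have hM2 : 2 ^ (j + 1) = 2 * M + 2 := by rw [pow_succ, hM]; ring
    rw [hM] at hf1 hf1' hf2 hf2'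
    rw [hM2]
    refine ⟨fun v => if v ∈ Q then f1 v else (M + 1) + f2 v, ?_, ?_⟩
    · intro v
      by_cases hv : v ∈ Q
      · have := hf1 v
        simp only [hv, if_true]
        omega
      · have := hf2 v
        simp only [hv, if_false]
        omega
    · intro e he i hi
      have hq := hQ e he
      have hsplit : (e ∩ (P \ Q)).card + (e ∩ Q).card = (e ∩ P).card := by
        rw [← Finset.card_union_of_disjoint]
        · congr 1
          rw [← Finset.inter_union_distrib_left, Finset.sdiff_union_of_subset hQP]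
        · rw [Finset.disjoint_left]
          intro v h1 h2
          exact (Finset.mem_sdiff.1 (Finset.mem_inter.1 h1).2).2 (Finset.mem_inter.1 h2).2
      by_cases hi1 : i < M + 1
      · have heq : P.filter (fun v => (if v ∈ Q then f1 v else (M + 1) + f2 v) = i)
            = Q.filter (fun v => f1 v = i) := by
          ext v
          simp only [Finset.mem_filter]
          constructor
          · rintro ⟨h1, h2⟩
            by_cases hv : v ∈ Q
            · rw [if_pos hv] at h2
              exact ⟨hv, h2⟩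
            · rw [if_neg hv] at h2
              omega
          · rintro ⟨h1, h2⟩
            rw [if_pos h1]
            exact ⟨hQP h1, h2⟩
        rw [heq]
        obtain ⟨h3, h4⟩ := hf1' e he i hi1
        have e1 : M + 1 - 1 = M := by omega
        have e2 : 2 * M + 2 - 1 = 2 * M + 1 := by omega
        rw [e1] at h3 h4
        rw [e2]
        constructor <;> nlinarith [hq.1, hq.2, hsplit]
      · have heq : P.filter (fun v => (if v ∈ Q then f1 v else (M + 1) + f2 v) = i)
            = (P \ Q).filter (fun v => f2 v = i - (M + 1)) := by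
          ext v
          simp only [Finset.mem_filter, Finset.mem_sdiff]
          constructor
          · rintro ⟨h1, h2⟩
            by_cases hv : v ∈ Q
            · rw [if_pos hv] at h2
              have := hf1 v
              omega
            · rw [if_neg hv] at h2
              exact ⟨⟨h1, hv⟩, by omega⟩
          · rintro ⟨⟨h1, hv⟩, h2⟩
            rw [if_neg hv]
            exact ⟨h1, by omega⟩
        rw [heq]
        obtain ⟨h3, h4⟩ := hf2' e he (i - (M + 1)) (by omega)
        have e1 : M + 1 - 1 = M := by omega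
        have e2 : 2 * M + 2 - 1 = 2 * M + 1 := by omega
        rw [e1] at h3 h4
        rw [e2]
        constructor <;> nlinarith [hq.1, hq.2, hsplit]

end Pool.Agent.H762R3.CF
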