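import Mathlib
import Pool.Agent.H762R3.CF.Mid

/-!
All `r ≥ 5` and maximum degree `53`.
-/

namespace Pool.Agent.H762R3.CF

open Finset Pool.Agent.Helper635.LLL
open Classical

theorem numT : ∀ r ∈ Finset.Icc 5 29,
    Nat.descFactorial 53 (r / 2) * (r / 2) ^ r * (4 * r * 53) ≤ Nat.factorial (r / 2) * 53 ^ r := by
  decide +kernel

theorem numM : ∀ s ∈ Finset.Icc 30 97, 301 * 62 ^ s ≤ 1000 * s * (62 - 1) ^ (s - 1) := by
  decide +kernel

theorem numL : ∀ s ∈ Finset.Icc 98 352, 301 * 199 ^ s ≤ 1000 * s * (199 - 1) ^ (s - 1) := by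
  decide +kernel

theorem good_tiny (D r : ℕ) (hr : 2 ≤ r) (hrD : r / 2 ≤ D) (hD1 : 1 ≤ D)
    (hnum : Nat.descFactorial D (r / 2) * (r / 2) ^ r * (4 * r * D) ≤
      Nat.factorial (r / 2) * D ^ r) : Good r D := by
  intro n E hU hD
  let B : Finset (Fin n) → (Fin n → Fin D) → Prop := fun e ω =>
    ¬ ∃ v ∈ e, ∀ w ∈ e, ω w = ω v → w = v
  have hNcard : Nat.card (Fin n → Fin D) = D ^ n := by simp
  have hdep : ∀ e ∈ E, Pool.Agent.Helper635.LLL.DependsOn (B e) e := by
    intro e _ ω ω' hag h hex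
    apply h
    obtain ⟨v, hv, hv2⟩ := hex
    refine ⟨v, hv, fun w hw hww => hv2 w hw ?_⟩
    rw [← hag w hw, ← hag v hv]
    exact hww
  have h2 : D.choose (r / 2) * (r / 2) ^ r * (4 * r * D) ≤ D ^ r := by
    refine Nat.le_of_mul_le_mul_left ?_ (Nat.factorial_pos (r / 2))
    calc Nat.factorial (r / 2) * (D.choose (r / 2) * (r / 2) ^ r * (4 * r * D))
        = (Nat.factorial (r / 2) * D.choose (r / 2)) * (r / 2) ^ r * (4 * r * D) := by ring
      _ = Nat.descFactorial D (r / 2) * (r / 2) ^ r * (4 * r * D) := by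
          rw [← Nat.descFactorial_eq_factorial_mul_choose]
      _ ≤ _ := hnum
  have hpos : (0 : ℝ) < 4 * (r : ℝ) * D := by
    have h1 : (0 : ℝ) < r := by exact_mod_cast (by omega : 0 < r)
    have h2 : (0 : ℝ) < D := by exact_mod_cast (by omega : 0 < D)
    positivity
  have hprob : ∀ e ∈ E, (cnt (B e) : ℝ) ≤ (1 / (4 * (r : ℝ) * D)) *
      (Nat.card (Fin n → Fin D) : ℝ) := by
    intro e he
    have hc := hU e he
    have hn : r ≤ n := by
      rw [← hc]
      simpa using Finset.card_le_univ e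
    have h1 := cnt_bad D e (by omega)
    rw [hc] at h1
    have h3 : cnt (B e) * (4 * r * D) ≤ D ^ n := by
      calc cnt (B e) * (4 * r * D)
          ≤ (D.choose (r / 2) * ((r / 2) ^ r * D ^ (n - r))) * (4 * r * D) :=
            Nat.mul_le_mul_right _ h1
        _ = (D.choose (r / 2) * (r / 2) ^ r * (4 * r * D)) * D ^ (n - r) := by ring
        _ ≤ D ^ r * D ^ (n - r) := Nat.mul_le_mul_right _ h2
        _ = D ^ n := by rw [← pow_add]; congr 1; omega
    rw [hNcard]
    have h4 : (cnt (B e) : ℝ) * (4 * (r : ℝ) * D) ≤ ((D ^ n : ℕ) : ℝ) := by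
      exact_mod_cast h3
    rw [one_div, inv_mul_eq_div, le_div_iff₀ hpos]
    exact h4
  have hne : 0 < Nat.card (Fin n → Fin D) := by
    rw [hNcard]
    exact pow_pos (by omega) n
  obtain ⟨ω, hω⟩ := lll E B (fun e => e) hdep (1 / (4 * (r : ℝ) * D)) (r * D)
    (by positivity)
    (fun e he => by rw [Fintype.card_eq_nat_card]; exact hprob e he)
    (fun e he => by
      have h1 := nbr_card' E D hD e
      rw [hU e he] at h1
      convert h1)
    (by
      push_cast
      have e1 : 4 * (1 / (4 * (r : ℝ) * D)) * ((r : ℝ) * D) = 1 := by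
        have : (4 * (r : ℝ) * D) ≠ 0 := hpos.ne'
        field_simp
      exact e1.le)
    (Nat.mul_pos (by omega) (by omega)) (by rw [Fintype.card_eq_nat_card]; exact hne)
  refine ⟨ω, ?_⟩
  intro e he
  have := hω e he
  simpa only [B, not_not] using this

theorem good_midL {n : ℕ} (E : Finset (Finset (Fin n))) (hD : DegLe E 53) (S0 : Finset (Fin n))
    (hsz : ∀ e ∈ E, 98 ≤ (e ∩ S0).card ∧ (e ∩ S0).card ≤ 352) :
    ∃ c : Fin n → Fin 53, IsCF E c :=
  good_of_sizes 52 E hD S0 98 352 199 (by norm_num) (by norm_num) (by norm_num) (by norm_num)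
    hsz 301 numL (7006 / 10000) (by norm_num) (by norm_num) (by norm_num)

theorem good_midM (r : ℕ) (h1 : 30 ≤ r) (h2 : r ≤ 97) : Good r 53 := by
  intro n E hU hD
  exact good_of_sizes 52 E hD Finset.univ 30 97 62 (by norm_num) (by norm_num) (by norm_num)
    (by norm_num) (fun e he => by rw [Finset.inter_univ, hU e he]; exact ⟨h1, h2⟩)
    301 numM (7040 / 10000) (by norm_num) (by norm_num) (by norm_num)

theorem good_53 (r : ℕ) (hr : 5 ≤ r) : Good r 53 := by
  by_cases h1 : r ≤ 29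
  · exact good_tiny 53 r (by omega) (by omega) (by norm_num) (numT r (Finset.mem_Icc.2 ⟨hr, h1⟩))
  by_cases h2 : r ≤ 97
  · exact good_midM r (by omega) h2
  by_cases h3 : r ≤ 352
  · intro n E hU hD
    exact good_midL E hD Finset.univ (fun e he => by
      rw [Finset.inter_univ, hU e he]; omega)
  intro n E hU hD
  obtain ⟨j, hj1, hj2⟩ : ∃ j, 150 * 2 ^ j ≤ r ∧ r < 300 * 2 ^ j := by
    refine ⟨Nat.log 2 (r / 150), ?_, ?_⟩
    · have h1 : 2 ^ Nat.log 2 (r / 150) ≤ r / 150 := Nat.pow_log_le_self 2 (by omega)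
      omega
    · have h1 : r / 150 < 2 ^ (Nat.log 2 (r / 150) + 1) := Nat.lt_pow_succ_log_self (by norm_num) _
      rw [pow_succ] at h1
      omega
  obtain ⟨f, hf, hf'⟩ := split E 53 hD j Finset.univ
  have hM1 : 1 ≤ 2 ^ j := Nat.one_le_two_pow
  set M := 2 ^ j with hMdef
  refine good_midL E hD (Finset.univ.filter (fun v => f v = 0)) ?_
  intro e he
  obtain ⟨h4, h5⟩ := hf' e he 0 (by omega)
  rw [Finset.inter_univ, hU e he] at h4 h5
  obtain ⟨M', hM'⟩ : ∃ M', M = M' + 1 := ⟨M - 1, by omega⟩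
  have e1 : M - 1 = M' := by omega
  rw [e1] at h4 h5
  constructor
  · by_contra hlt
    push Not at hlt
    have : M * (e ∩ Finset.univ.filter (fun v => f v = 0)).card ≤ M * 97 :=
      Nat.mul_le_mul_left _ (by omega)
    omega
  · by_contra hlt
    push Not at hlt
    have : M * 353 ≤ M * (e ∩ Finset.univ.filter (fun v => f v = 0)).card :=
      Nat.mul_le_mul_left _ (by omega)
    omega

end Pool.Agent.H762R3.CF
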