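import Mathlib
import Pool.Agent.H762R3.CF.Mid

/-!
Sharper version of the count (square root factor).
-/

namespace Pool.Agent.H762R3.CF

open Finset Pool.Agent.Helper635.LLL
open Classical

variable {n : ℕ}

theorem fact_sq (s : ℕ) (hs : 1 ≤ s) :
    ((s.factorial : ℝ) * Real.exp s) ^ 2 ≤ Real.exp 1 ^ 2 * s * ((s : ℝ) ^ s) ^ 2 := by
  induction s, hs using Nat.le_induction with
  | base => simp
  | succ m hm ih =>
    have hm0 : (0 : ℝ) < m := by exact_mod_cast hm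
    have h1 : Real.exp 1 ^ 2 * ((m : ℝ) ^ (2 * m + 1)) ≤ ((m : ℝ) + 1) ^ (2 * m + 1) := by
      have h2 := Real.le_log_one_add_of_nonneg (x := 1 / (m : ℝ)) (by positivity)
      have h3 : 2 * (1 / (m : ℝ)) / (1 / (m : ℝ) + 2) = 2 / (2 * (m : ℝ) + 1) := by
        field_simp
        ring
      have h3' : (1 : ℝ) + 1 / (m : ℝ) = ((m : ℝ) + 1) / m := by field_simp
      rw [h3, h3'] at h2
      have h4 : (2 : ℝ) ≤ Real.log ((((m : ℝ) + 1) / m) ^ (2 * m + 1)) := by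
        rw [Real.log_pow]
        push_cast
        rw [div_le_iff₀ (by positivity)] at h2
        linarith
      have h5 : Real.exp 1 ^ 2 ≤ (((m : ℝ) + 1) / m) ^ (2 * m + 1) := by
        rw [← Real.exp_log (show (0 : ℝ) < (((m : ℝ) + 1) / m) ^ (2 * m + 1) by positivity)]
        have h6 : Real.exp 1 ^ 2 = Real.exp 2 := by
          rw [← Real.exp_nat_mul]
          norm_num
        rw [h6]
        exact Real.exp_le_exp.2 h4
      rw [div_pow, le_div_iff₀ (by positivity)] at h5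
      exact h5
    rw [Nat.factorial_succ]
    push_cast
    rw [Real.exp_add]
    calc (((m : ℝ) + 1) * (m.factorial : ℝ) * (Real.exp m * Real.exp 1)) ^ 2
        = (((m : ℝ) + 1) * Real.exp 1) ^ 2 * ((m.factorial : ℝ) * Real.exp m) ^ 2 := by ring
      _ ≤ (((m : ℝ) + 1) * Real.exp 1) ^ 2 * (Real.exp 1 ^ 2 * m * ((m : ℝ) ^ m) ^ 2) := by gcongr
      _ = (((m : ℝ) + 1) * Real.exp 1) ^ 2 * (Real.exp 1 ^ 2 * (m : ℝ) ^ (2 * m + 1)) := by ring
      _ ≤ (((m : ℝ) + 1) * Real.exp 1) ^ 2 * (((m : ℝ) + 1) ^ (2 * m + 1)) := by gcongr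
      _ = Real.exp 1 ^ 2 * ((m : ℝ) + 1) * (((m : ℝ) + 1) ^ (m + 1)) ^ 2 := by ring

theorem fact_B (s B : ℕ) (hs : 1 ≤ s) (hB : s ≤ B ^ 2) :
    (s.factorial : ℝ) * Real.exp s ≤ 3 * B * (s : ℝ) ^ s := by
  have h1 := fact_sq s hs
  have h2 : Real.exp 1 ^ 2 ≤ 3 ^ 2 := by
    have : Real.exp 1 ≤ 3 := by linarith [Real.exp_one_lt_d9]
    exact pow_le_pow_left₀ (Real.exp_pos 1).le this 2
  have h3 : (s : ℝ) ≤ (B : ℝ) ^ 2 := by exact_mod_cast hB
  refine le_of_sq_le_sq ?_ (by positivity)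
  calc ((s.factorial : ℝ) * Real.exp s) ^ 2 ≤ Real.exp 1 ^ 2 * s * ((s : ℝ) ^ s) ^ 2 := h1
    _ ≤ 3 ^ 2 * (B : ℝ) ^ 2 * ((s : ℝ) ^ s) ^ 2 := by gcongr
    _ = (3 * B * (s : ℝ) ^ s) ^ 2 := by ring

/-- probability of the bad event -/
theorem prob_bound2 (k N B : ℕ) (hk : k ≤ N) (hN : 1 ≤ N) (e : Finset (Fin n)) (he : 1 ≤ e.card)
    (hB : e.card ≤ B ^ 2)
    (q : ℝ) (hq : 1 - ((e.card : ℝ) / N) * Real.exp (-((e.card : ℝ) / N)) ≤ q) :
    (cnt (fun ω : Fin n → Fin N => ∀ i < k, ¬ (e.filter (fun v => (ω v).val = i)).card = 1) : ℝ) ≤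
      3 * B * q ^ k * (N : ℝ) ^ n := by
  set s := e.card with hs
  have hs0 : (0 : ℝ) < s := by exact_mod_cast he
  have hN0 : (0 : ℝ) < N := by exact_mod_cast hN
  have hsn : s ≤ n := by rw [hs]; simpa using Finset.card_le_univ e
  set z : ℝ := (s : ℝ) / N with hz
  have hz0 : 0 < z := by positivity
  have h1 := cnt_egf k N hk e z hz0
  rw [← hs] at h1
  refine h1.trans ?_
  have hx0 : 0 ≤ 1 - z * Real.exp (-z) := by
    have h2 := Real.add_one_le_exp z
    have h3 : Real.exp z * Real.exp (-z) = 1 := by rw [← Real.exp_add]; simp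
    nlinarith [Real.exp_pos (-z)]
  have h2 : (Real.exp z - z) = Real.exp z * (1 - z * Real.exp (-z)) := by
    have h3 : Real.exp z * Real.exp (-z) = 1 := by rw [← Real.exp_add]; simp
    linear_combination (z) * h3
  have h3 : (Real.exp z - z) ^ k * Real.exp z ^ (N - k) = (1 - z * Real.exp (-z)) ^ k * Real.exp s := by
    rw [h2, mul_pow]
    have h4 : Real.exp z ^ k * Real.exp z ^ (N - k) = Real.exp s := by
      rw [← pow_add, ← Real.exp_nat_mul]
      congr 1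
      rw [hz]
      have : ((k + (N - k) : ℕ) : ℝ) = N := by
        congr 1
        omega
      rw [this]
      field_simp
    calc Real.exp z ^ k * (1 - z * Real.exp (-z)) ^ k * Real.exp z ^ (N - k)
        = (1 - z * Real.exp (-z)) ^ k * (Real.exp z ^ k * Real.exp z ^ (N - k)) := by ring
      _ = _ := by rw [h4]
  rw [h3]
  have h5 : (s.factorial : ℝ) / z ^ s * Real.exp s ≤ 3 * B * (N : ℝ) ^ s := by
    have h6 := fact_B s B he hB
    have h7 : z ^ s = (s : ℝ) ^ s / (N : ℝ) ^ s := by rw [hz, div_pow]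
    rw [h7, div_div_eq_mul_div, div_mul_eq_mul_div, div_le_iff₀ (by positivity)]
    calc (s.factorial : ℝ) * (N : ℝ) ^ s * Real.exp s
        = (N : ℝ) ^ s * ((s.factorial : ℝ) * Real.exp s) := by ring
      _ ≤ (N : ℝ) ^ s * (3 * B * (s : ℝ) ^ s) := by gcongr
      _ = 3 * B * (N : ℝ) ^ s * (s : ℝ) ^ s := by ring
  have h9 : (1 - z * Real.exp (-z)) ^ k ≤ q ^ k := pow_le_pow_left₀ hx0 hq k
  have hNp : (N : ℝ) ^ s * (N : ℝ) ^ (n - s) = (N : ℝ) ^ n := by
    rw [← pow_add]; congr 1; omega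
  calc (s.factorial : ℝ) / z ^ s * ((1 - z * Real.exp (-z)) ^ k * Real.exp s) * (N : ℝ) ^ (n - s)
      = ((s.factorial : ℝ) / z ^ s * Real.exp s) * (1 - z * Real.exp (-z)) ^ k * (N : ℝ) ^ (n - s) := by ring
    _ ≤ (3 * B * (N : ℝ) ^ s) * q ^ k * (N : ℝ) ^ (n - s) := by
        refine mul_le_mul_of_nonneg_right ?_ (by positivity)
        exact mul_le_mul h5 h9 (pow_nonneg hx0 k) (by positivity)
    _ = 3 * B * q ^ k * ((N : ℝ) ^ s * (N : ℝ) ^ (n - s)) := by ring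
    _ = 3 * B * q ^ k * (N : ℝ) ^ n := by rw [hNp]

theorem good_of_sizes2 (k B0 : ℕ) (E : Finset (Finset (Fin n))) (hD : DegLe E (k + 1))
    (S0 : Finset (Fin n)) (a b N : ℕ) (ha : 1 ≤ a) (hb : 1 ≤ b)
    (hB0 : b ≤ B0 ^ 2) (hkN : k ≤ N) (hN1 : 1 ≤ N)
    (hsz : ∀ e ∈ E, a ≤ (e ∩ S0).card ∧ (e ∩ S0).card ≤ b)
    (c : ℕ) (hnum : ∀ s ∈ Finset.Icc a b, c * N ^ s ≤ 1000 * s * (N - 1) ^ (s - 1))
    (q : ℝ) (hq0 : 0 ≤ q) (hq : 1 - ((c : ℝ) / 1000) * (1 - 1 / (N : ℝ)) ≤ q)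
    (hL : 4 * (3 * B0 * q ^ k) * (b * (k + 1)) ≤ 1) :
    ∃ c : Fin n → Fin (k + 1), IsCF E c := by
  let B : Finset (Fin n) → (Fin n → Fin N) → Prop := fun e ω =>
    ∀ i < k, ¬ ((e ∩ S0).filter (fun v => (ω v).val = i)).card = 1
  have hNcard : Nat.card (Fin n → Fin N) = N ^ n := by simp
  have hdep : ∀ e ∈ E, Pool.Agent.Helper635.LLL.DependsOn (B e) (e ∩ S0) := by
    intro e _ ω ω' hag h i hi
    have : (e ∩ S0).filter (fun v => (ω' v).val = i) = (e ∩ S0).filter (fun v => (ω v).val = i) := by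
      refine Finset.filter_congr fun v hv => ?_
      rw [hag v hv]
    rw [this]
    exact h i hi
  have hprob : ∀ e ∈ E, (cnt (B e) : ℝ) ≤ (3 * B0 * q ^ k) * (Nat.card (Fin n → Fin N) : ℝ) := by
    intro e he
    obtain ⟨h1, h2⟩ := hsz e he
    have h3 := z_bound c (e ∩ S0).card N (by omega) hN1 (hnum _ (Finset.mem_Icc.2 ⟨h1, h2⟩))
    have h4 := prob_bound2 k N B0 hkN hN1 (e ∩ S0) (by omega) (h2.trans hB0) q (by linarith)
    refine h4.trans ?_
    rw [hNcard]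
    push_cast
    exact le_refl _
  have hne : 0 < Nat.card (Fin n → Fin N) := by
    rw [hNcard]
    exact pow_pos (by omega) n
  obtain ⟨ω, hω⟩ := lll E B (fun e => e ∩ S0) hdep (3 * B0 * q ^ k) (b * (k + 1)) (by positivity)
    (fun e he => by rw [Fintype.card_eq_nat_card]; exact hprob e he)
    (fun e he => by
      have h1 : (E.filter (fun g => ¬ Disjoint (e ∩ S0) (g ∩ S0))).card ≤ b * (k + 1) := by
        have hsub : E.filter (fun g => ¬ Disjoint (e ∩ S0) (g ∩ S0)) ⊆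
            (e ∩ S0).biUnion (fun v => E.filter (fun g => v ∈ g)) := by
          intro g hg
          rw [Finset.mem_filter, Finset.not_disjoint_iff] at hg
          obtain ⟨hg, v, hv1, hv2⟩ := hg
          rw [Finset.mem_biUnion]
          exact ⟨v, hv1, Finset.mem_filter.2 ⟨hg, (Finset.mem_inter.1 hv2).1⟩⟩
        refine (Finset.card_le_card hsub).trans (Finset.card_biUnion_le.trans ?_)
        refine (Finset.sum_le_card_nsmul _ _ (k + 1) fun v _ => ?_).trans ?_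
        · convert hD v
        · rw [smul_eq_mul]
          exact Nat.mul_le_mul_right _ (hsz e he).2
      convert h1)
    (by push_cast; exact hL) (Nat.mul_pos hb (by omega))
    (by rw [Fintype.card_eq_nat_card]; exact hne)
  refine ⟨fun v => if h : v ∈ S0 ∧ (ω v).val < k then ⟨(ω v).val, by omega⟩ else Fin.last k, ?_⟩
  intro e he
  have hbad := hω e he
  simp only [B, not_forall, not_not] at hbad
  obtain ⟨i, hi, hcard⟩ := hbad
  rw [Finset.card_eq_one] at hcard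
  obtain ⟨v, hv⟩ := hcard
  have hvm : v ∈ (e ∩ S0).filter (fun v => (ω v).val = i) := by rw [hv]; simp
  rw [Finset.mem_filter] at hvm
  have hve := Finset.mem_inter.1 hvm.1
  refine ⟨v, hve.1, ?_⟩
  intro w hw hcw
  have hvc : v ∈ S0 ∧ (ω v).val < k := ⟨hve.2, by omega⟩
  beta_reduce at hcw
  by_cases hwc : w ∈ S0 ∧ (ω w).val < k
  · rw [dif_pos hvc, dif_pos hwc, Fin.mk.injEq] at hcw
    have : w ∈ (e ∩ S0).filter (fun v => (ω v).val = i) := by
      rw [Finset.mem_filter]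
      exact ⟨Finset.mem_inter.2 ⟨hw, hwc.1⟩, by omega⟩
    rw [hv] at this
    simpa using this
  · rw [dif_pos hvc, dif_neg hwc] at hcw
    have := congrArg Fin.val hcw
    simp at this
    omega

end Pool.Agent.H762R3.CF
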