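import Mathlib
import Pool.Agent.H762R3.CF.Final
import Pool.Agent.H762R3.CF.Mid2

/-!
All `r ≥ 5` and maximum degree `46`.
-/

namespace Pool.Agent.H762R3.CF

open Finset Pool.Agent.Helper635.LLL
open Classical

theorem numM2 : ∀ s ∈ Finset.Icc 30 80, 328 * 52 ^ s ≤ 1000 * s * (52 - 1) ^ (s - 1) := by
  decide +kernel

theorem numL2 : ∀ s ∈ Finset.Icc 70 275, 293 * 150 ^ s ≤ 1000 * s * (150 - 1) ^ (s - 1) := by
  decide +kernel

theorem numE : ∀ r ∈ Finset.Icc 7 29,
    4 * Nat.factorial r * 5 ^ r * 10919 ^ 46 * (r * 46) ≤ 2 ^ r * 10000 ^ 46 * 46 ^ r := by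
  decide +kernel

theorem good_egf (D r : ℕ) (hD1 : 1 ≤ D) (hr : 1 ≤ r) (z A : ℝ) (hz : 0 < z)
    (hA : Real.exp z - z ≤ A)
    (hL : 4 * ((r.factorial : ℝ) / z ^ r * A ^ D / (D : ℝ) ^ r) * (r * D) ≤ 1) : Good r D := by
  intro n E hU hD
  let B : Finset (Fin n) → (Fin n → Fin D) → Prop := fun e ω =>
    ∀ i < D, ¬ (e.filter (fun v => (ω v).val = i)).card = 1
  have hNcard : Nat.card (Fin n → Fin D) = D ^ n := by simp
  have hA0 : 0 ≤ A := by
    have := Real.add_one_le_exp z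
    linarith
  have hD0 : (0 : ℝ) < D := by exact_mod_cast (by omega : 0 < D)
  have hdep : ∀ e ∈ E, Pool.Agent.Helper635.LLL.DependsOn (B e) e := by
    intro e _ ω ω' hag h i hi
    have : e.filter (fun v => (ω' v).val = i) = e.filter (fun v => (ω v).val = i) := by
      refine Finset.filter_congr fun v hv => ?_
      rw [hag v hv]
    rw [this]
    exact h i hi
  have hprob : ∀ e ∈ E, (cnt (B e) : ℝ) ≤ ((r.factorial : ℝ) / z ^ r * A ^ D / (D : ℝ) ^ r) *
      (Nat.card (Fin n → Fin D) : ℝ) := by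
    intro e he
    have hc := hU e he
    have hn : r ≤ n := by
      rw [← hc]
      simpa using Finset.card_le_univ e
    have h1 := cnt_egf D D le_rfl e z hz
    rw [hc, Nat.sub_self, pow_zero, mul_one] at h1
    refine h1.trans ?_
    have h0 : 0 ≤ Real.exp z - z := by
      have := Real.add_one_le_exp z
      linarith
    have h2 : (Real.exp z - z) ^ D ≤ A ^ D := pow_le_pow_left₀ h0 hA D
    have h3 : (D : ℝ) ^ n = (D : ℝ) ^ r * (D : ℝ) ^ (n - r) := by
      rw [← pow_add]; congr 1; omega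
    rw [hNcard]
    push_cast
    rw [h3]
    have h4 : (D : ℝ) ^ r ≠ 0 := by positivity
    calc (r.factorial : ℝ) / z ^ r * (Real.exp z - z) ^ D * (D : ℝ) ^ (n - r)
        ≤ (r.factorial : ℝ) / z ^ r * A ^ D * (D : ℝ) ^ (n - r) := by gcongr
      _ = (r.factorial : ℝ) / z ^ r * A ^ D / (D : ℝ) ^ r * ((D : ℝ) ^ r * (D : ℝ) ^ (n - r)) := by
          field_simp
  have hne : 0 < Nat.card (Fin n → Fin D) := by
    rw [hNcard]
    exact pow_pos (by omega) n
  obtain ⟨ω, hω⟩ := lll E B (fun e => e) hdep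
    ((r.factorial : ℝ) / z ^ r * A ^ D / (D : ℝ) ^ r) (r * D) (by positivity)
    (fun e he => by rw [Fintype.card_eq_nat_card]; exact hprob e he)
    (fun e he => by
      have h1 := nbr_card' E D hD e
      rw [hU e he] at h1
      convert h1)
    (by push_cast; exact hL)
    (Nat.mul_pos (by omega) (by omega)) (by rw [Fintype.card_eq_nat_card]; exact hne)
  refine ⟨ω, ?_⟩
  intro e he
  have hbad := hω e he
  simp only [B, not_forall, not_not] at hbad
  obtain ⟨i, hi, hcard⟩ := hbad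
  rw [Finset.card_eq_one] at hcard
  obtain ⟨v, hv⟩ := hcard
  have hvm : v ∈ e.filter (fun v => (ω v).val = i) := by rw [hv]; simp
  rw [Finset.mem_filter] at hvm
  refine ⟨v, hvm.1, ?_⟩
  intro w hw hcw
  have : w ∈ e.filter (fun v => (ω v).val = i) := by
    rw [Finset.mem_filter]
    exact ⟨hw, by rw [hcw]; exact hvm.2⟩
  rw [hv] at this
  simpa using this

theorem exp_a : Real.exp (341 / 1000) - 341 / 1000 ≤ 10655 / 10000 := by
  have h := Real.exp_bound' (x := 341 / 1000) (by norm_num) (by norm_num) (n := 6) (by norm_num)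
  have h2 : (∑ m ∈ Finset.range 6, ((341 : ℝ) / 1000) ^ m / (m.factorial : ℝ)) +
      ((341 : ℝ) / 1000) ^ 6 * ((6 : ℕ) + 1) / ((Nat.factorial 6 : ℝ) * (6 : ℕ)) ≤ 14065 / 10000 := by
    norm_num [Finset.sum_range_succ, Nat.factorial]
  have := h.trans h2
  linarith

theorem exp_b : Real.exp (2 / 5) - 2 / 5 ≤ 10919 / 10000 := by
  have h := Real.exp_bound' (x := 2 / 5) (by norm_num) (by norm_num) (n := 6) (by norm_num)
  have h2 : (∑ m ∈ Finset.range 6, ((2 : ℝ) / 5) ^ m / (m.factorial : ℝ)) +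
      ((2 : ℝ) / 5) ^ 6 * ((6 : ℕ) + 1) / ((Nat.factorial 6 : ℝ) * (6 : ℕ)) ≤ 14919 / 10000 := by
    norm_num [Finset.sum_range_succ, Nat.factorial]
  have := h.trans h2
  linarith

theorem good_5 : Good 5 46 :=
  good_tiny 46 5 (by norm_num) (by norm_num) (by norm_num) (by decide +kernel)

theorem good_6 : Good 6 46 := by
  refine good_egf 46 6 (by norm_num) (by norm_num) (341 / 1000) (10655 / 10000) (by norm_num)
    exp_a ?_
  norm_num [Nat.factorial]

theorem good_7 (r : ℕ) (h1 : 7 ≤ r) (h2 : r ≤ 29) : Good r 46 := by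
  refine good_egf 46 r (by norm_num) (by omega) (2 / 5) (10919 / 10000) (by norm_num) exp_b ?_
  have h := numE r (Finset.mem_Icc.2 ⟨h1, h2⟩)
  have h' : (4 : ℝ) * (Nat.factorial r : ℝ) * 5 ^ r * 10919 ^ 46 * ((r : ℝ) * 46)
      ≤ 2 ^ r * 10000 ^ 46 * 46 ^ r := by exact_mod_cast h
  push_cast
  rw [div_pow, div_pow]
  have e1 : 4 * ((r.factorial : ℝ) / ((2 : ℝ) ^ r / 5 ^ r) * ((10919 : ℝ) ^ 46 / 10000 ^ 46) /
      (46 : ℝ) ^ r) * ((r : ℝ) * 46)
      = (4 * (r.factorial : ℝ) * 5 ^ r * 10919 ^ 46 * ((r : ℝ) * 46)) /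
        (2 ^ r * 10000 ^ 46 * 46 ^ r) := by
    field_simp
  rw [e1, div_le_one (by positivity)]
  exact h'

theorem good_mid2 {n : ℕ} (E : Finset (Finset (Fin n))) (hD : DegLe E 46) (S0 : Finset (Fin n))
    (hsz : ∀ e ∈ E, 70 ≤ (e ∩ S0).card ∧ (e ∩ S0).card ≤ 275) :
    ∃ c : Fin n → Fin 46, IsCF E c :=
  good_of_sizes2 45 17 E hD S0 70 275 150 (by norm_num) (by norm_num) (by norm_num) (by norm_num)
    (by norm_num) hsz 293 numL2 (7090 / 10000) (by norm_num) (by norm_num) (by norm_num)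

theorem good_midM2 (r : ℕ) (h1 : 30 ≤ r) (h2 : r ≤ 80) : Good r 46 := by
  intro n E hU hD
  exact good_of_sizes2 45 9 E hD Finset.univ 30 80 52 (by norm_num) (by norm_num) (by norm_num)
    (by norm_num) (by norm_num)
    (fun e he => by rw [Finset.inter_univ, hU e he]; exact ⟨h1, h2⟩)
    328 numM2 (6784 / 10000) (by norm_num) (by norm_num) (by norm_num)

theorem good_46 (r : ℕ) (hr : 5 ≤ r) : Good r 46 := by
  by_cases h0 : r = 5
  · subst h0; exact good_5
  by_cases h00 : r = 6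
  · subst h00; exact good_6
  by_cases h1 : r ≤ 29
  · exact good_7 r (by omega) h1
  by_cases h2 : r ≤ 80
  · exact good_midM2 r (by omega) h2
  by_cases h3 : r ≤ 275
  · intro n E hU hD
    exact good_mid2 E hD Finset.univ (fun e he => by
      rw [Finset.inter_univ, hU e he]; omega)
  intro n E hU hD
  obtain ⟨j, hj1, hj2⟩ : ∃ j, 115 * 2 ^ j ≤ r ∧ r < 230 * 2 ^ j := by
    refine ⟨Nat.log 2 (r / 115), ?_, ?_⟩
    · have h1 : 2 ^ Nat.log 2 (r / 115) ≤ r / 115 := Nat.pow_log_le_self 2 (by omega)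
      omega
    · have h1 : r / 115 < 2 ^ (Nat.log 2 (r / 115) + 1) := Nat.lt_pow_succ_log_self (by norm_num) _
      rw [pow_succ] at h1
      omega
  obtain ⟨f, hf, hf'⟩ := split E 46 hD j Finset.univ
  have hM1 : 1 ≤ 2 ^ j := Nat.one_le_two_pow
  set M := 2 ^ j with hMdef
  refine good_mid2 E hD (Finset.univ.filter (fun v => f v = 0)) ?_
  intro e he
  obtain ⟨h4, h5⟩ := hf' e he 0 (by omega)
  rw [Finset.inter_univ, hU e he] at h4 h5
  obtain ⟨M', hM'⟩ : ∃ M', M = M' + 1 := ⟨M - 1, by omega⟩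
  have e1 : M - 1 = M' := by omega
  rw [e1] at h4 h5
  constructor
  · by_contra hlt
    push Not at hlt
    have : M * (e ∩ Finset.univ.filter (fun v => f v = 0)).card ≤ M * 69 :=
      Nat.mul_le_mul_left _ (by omega)
    omega
  · by_contra hlt
    push Not at hlt
    have : M * 276 ≤ M * (e ∩ Finset.univ.filter (fun v => f v = 0)).card :=
      Nat.mul_le_mul_left _ (by omega)
    omega

end Pool.Agent.H762R3.CF
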