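import Mathlib
import Pool.Agent.H762R3.CF.Final2

/-!
All `r ≥ 5` and maximum degree `41`.
-/

namespace Pool.Agent.H762R3.CF

open Finset Pool.Agent.Helper635.LLL
open Classical

def noU (g : Fin 6 → Fin 3) : Bool := decide (∀ i, ∃ j, g j = g i ∧ j ≠ i)

theorem card_noU : (Finset.univ.filter (fun g : Fin 6 → Fin 3 => noU g = true)).card = 243 := by
  have h : (Finset.univ.filter (fun g : Fin 6 → Fin 3 => noU g = true)).card
      = @Finset.card (Fin 6 → Fin 3) (@Finset.filter (Fin 6 → Fin 3) (fun g => noU g = true)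
        (fun g => instDecidableEqBool (noU g) true) Finset.univ) := by
    congr
  rw [h]
  decide +kernel

theorem good_of_cnt (D r : ℕ) (hr : 1 ≤ r) (hD1 : 1 ≤ D)
    (hc : ∀ (n : ℕ) (e : Finset (Fin n)), e.card = r →
      cnt (fun ω : Fin n → Fin D => ¬ ∃ v ∈ e, ∀ w ∈ e, ω w = ω v → w = v) * (4 * r * D) ≤ D ^ n) :
    Good r D := by
  intro n E hU hD
  let B : Finset (Fin n) → (Fin n → Fin D) → Prop := fun e ω =>
    ¬ ∃ v ∈ e, ∀ w ∈ e, ω w = ω v → w = v
  have hNcard : Nat.card (Fin n → Fin D) = D ^ n := by simp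
  have hdep : ∀ e ∈ E, Pool.Agent.Helper635.LLL.DependsOn (B e) e := by
    intro e _ ω ω' hag h hex
    apply h
    obtain ⟨v, hv, hv2⟩ := hex
    refine ⟨v, hv, fun w hw hww => hv2 w hw ?_⟩
    rw [← hag w hw, ← hag v hv]
    exact hww
  have hpos : (0 : ℝ) < 4 * (r : ℝ) * D := by
    have h1 : (0 : ℝ) < r := by exact_mod_cast (by omega : 0 < r)
    have h2 : (0 : ℝ) < D := by exact_mod_cast (by omega : 0 < D)
    positivity
  have hprob : ∀ e ∈ E, (cnt (B e) : ℝ) ≤ (1 / (4 * (r : ℝ) * D)) *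
      (Nat.card (Fin n → Fin D) : ℝ) := by
    intro e he
    have h3 := hc n e (hU e he)
    rw [hNcard]
    have h4 : (cnt (B e) : ℝ) * (4 * (r : ℝ) * D) ≤ ((D ^ n : ℕ) : ℝ) := by
      exact_mod_cast h3
    rw [one_div, inv_mul_eq_div, le_div_iff₀ hpos]
    exact h4
  have hne : 0 < Nat.card (Fin n → Fin D) := by
    rw [hNcard]
    exact pow_pos (by omega) n
  obtain ⟨ω, hω⟩ := lll E B (fun e => e) hdep (1 / (4 * (r : ℝ) * D)) (r * D)
    (by positivity)
    (fun e he => by rw [Fintype.card_eq_nat_card]; exact hprob e he)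
    (fun e he => by
      have h1 := nbr_card' E D hD e
      rw [hU e he] at h1
      convert h1)
    (by
      push_cast
      have e1 : 4 * (1 / (4 * (r : ℝ) * D)) * ((r : ℝ) * D) = 1 := by
        have : (4 * (r : ℝ) * D) ≠ 0 := hpos.ne'
        field_simp
      exact e1.le)
    (Nat.mul_pos (by omega) (by omega)) (by rw [Fintype.card_eq_nat_card]; exact hne)
  refine ⟨ω, ?_⟩
  intro e he
  have := hω e he
  simpa only [B, not_not] using this

theorem part6 {n : ℕ} (N : ℕ) (e : Finset (Fin n)) (he : e.card = 6) (A : Finset (Fin N))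
    (hA : A.card = 3) :
    (ev (fun ω : Fin n → Fin N => (∀ v ∈ e, ω v ∈ A) ∧
      ¬ ∃ v ∈ e, ∀ w ∈ e, ω w = ω v → w = v)).card ≤ 243 * N ^ (n - 6) := by
  obtain ⟨a0, ha0⟩ : A.Nonempty := by
    rw [← Finset.card_pos, hA]; norm_num
  let α : e ≃ Fin 6 := Finset.equivFinOfCardEq he
  let β : A ≃ Fin 3 := Finset.equivFinOfCardEq hA
  have hcard2 : (Fintype.piFinset (fun v : Fin n => if v ∈ e then ({a0} : Finset (Fin N)) else
      Finset.univ)).card = N ^ (n - 6) := by
    rw [Fintype.card_piFinset]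
    have h1 : ∀ v, (if v ∈ e then ({a0} : Finset (Fin N)) else Finset.univ).card
        = (if v ∈ eᶜ then N else 1) := by
      intro v
      by_cases hv : v ∈ e <;> simp [hv]
    rw [Finset.prod_congr rfl fun v _ => h1 v, Finset.prod_ite_mem, Finset.univ_inter,
      Finset.prod_const, Finset.card_compl, Fintype.card_fin, he]
  rw [← hcard2, ← card_noU, ← Finset.card_product]
  refine Finset.card_le_card_of_injOn (fun ω => ((fun i : Fin 6 =>
    if h : ω (α.symm i) ∈ A then β ⟨ω (α.symm i), h⟩ else 0),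
    (fun v => if v ∈ e then a0 else ω v))) ?_ ?_
  · intro ω hω
    rw [Finset.mem_coe, mem_ev] at hω
    obtain ⟨h1, h2⟩ := hω
    rw [Finset.mem_coe, Finset.mem_product]
    constructor
    · rw [Finset.mem_filter]
      refine ⟨Finset.mem_univ _, ?_⟩
      unfold noU
      rw [decide_eq_true_iff]
      intro i
      push Not at h2
      obtain ⟨w, hw, hwv, hne⟩ := h2 (α.symm i) (α.symm i).2
      refine ⟨α ⟨w, hw⟩, ?_, ?_⟩
      · dsimp only
        have e1 : ((α.symm (α ⟨w, hw⟩) : e) : Fin n) = w := by simp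
        have e2 : ω ((α.symm (α ⟨w, hw⟩) : e) : Fin n) ∈ A := by rw [e1]; exact h1 w hw
        have e3 : ω (α.symm i) ∈ A := h1 _ (α.symm i).2
        rw [dif_pos e2, dif_pos e3]
        congr 1
        apply Subtype.ext
        change ω ((α.symm (α ⟨w, hw⟩) : e) : Fin n) = ω (α.symm i)
        rw [e1, hwv]
      · intro hi
        apply hne
        have := congrArg α.symm hi
        rw [Equiv.symm_apply_apply] at this
        exact congrArg Subtype.val this
    · rw [Fintype.mem_piFinset]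
      intro v
      by_cases hv : v ∈ e <;> simp [hv]
  · intro ω1 h1 ω2 h2 heq
    rw [Finset.mem_coe, mem_ev] at h1 h2
    rw [Prod.mk.injEq] at heq
    funext v
    by_cases hv : v ∈ e
    · have h3 := congrFun heq.1 (α ⟨v, hv⟩)
      have e1 : ((α.symm (α ⟨v, hv⟩) : e) : Fin n) = v := by simp
      have e2 : ω1 ((α.symm (α ⟨v, hv⟩) : e) : Fin n) ∈ A := by rw [e1]; exact h1.1 v hv
      have e3 : ω2 ((α.symm (α ⟨v, hv⟩) : e) : Fin n) ∈ A := by rw [e1]; exact h2.1 v hv
      beta_reduce at h3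
      rw [dif_pos e2, dif_pos e3] at h3
      have h4 := congrArg Subtype.val (β.injective h3)
      simpa only [e1] using h4
    · have h3 := congrFun heq.2 v
      simpa [hv] using h3

theorem cnt_bad6 {n : ℕ} (N : ℕ) (hN : 3 ≤ N) (e : Finset (Fin n)) (he : e.card = 6) :
    cnt (fun ω : Fin n → Fin N => ¬ ∃ v ∈ e, ∀ w ∈ e, ω w = ω v → w = v) ≤
      N.choose 3 * (243 * N ^ (n - 6)) := by
  have hsub : ev (fun ω : Fin n → Fin N => ¬ ∃ v ∈ e, ∀ w ∈ e, ω w = ω v → w = v) ⊆
      (Finset.powersetCard 3 (Finset.univ : Finset (Fin N))).biUnion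
        (fun A => ev (fun ω : Fin n → Fin N => (∀ v ∈ e, ω v ∈ A) ∧
          ¬ ∃ v ∈ e, ∀ w ∈ e, ω w = ω v → w = v)) := by
    intro ω hω
    rw [mem_ev] at hω
    have hω' := hω
    push Not at hω
    have h2 : 2 * (e.image ω).card ≤ e.card := by
      refine Finset.mul_card_image_le_card _ _ ?_
      intro c hc
      obtain ⟨v, hv, rfl⟩ := Finset.mem_image.1 hc
      obtain ⟨w, hw, hwv, hne⟩ := hω v hv
      have : ({v, w} : Finset (Fin n)) ⊆ e.filter (fun x => ω x = ω v) := by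
        intro x hx
        rw [Finset.mem_insert, Finset.mem_singleton] at hx
        rcases hx with rfl | rfl
        · simp [hv]
        · simp [hw, hwv]
      calc 2 = ({v, w} : Finset (Fin n)).card := by
            rw [Finset.card_pair (Ne.symm hne)]
        _ ≤ _ := Finset.card_le_card this
    obtain ⟨A, hA1, hA2⟩ := Finset.exists_superset_card_eq (s := e.image ω) (n := 3)
      (by omega) (by simpa using hN)
    rw [Finset.mem_biUnion]
    refine ⟨A, by simp [Finset.mem_powersetCard, hA2], ?_⟩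
    rw [mem_ev]
    exact ⟨fun v hv => hA1 (Finset.mem_image_of_mem ω hv), hω'⟩
  unfold cnt
  refine (Finset.card_le_card hsub).trans (Finset.card_biUnion_le.trans ?_)
  refine (Finset.sum_le_card_nsmul _ _ (243 * N ^ (n - 6)) fun A hA => ?_).trans ?_
  · exact part6 N e he A (Finset.mem_powersetCard.1 hA).2
  · simp

theorem good_6' : Good 6 41 := by
  refine good_of_cnt 41 6 (by norm_num) (by norm_num) ?_
  intro n e he
  have hn : 6 ≤ n := by
    rw [← he]
    simpa using Finset.card_le_univ e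
  have h1 := cnt_bad6 41 (by norm_num) e he
  have h2 : Nat.choose 41 3 * 243 * (4 * 6 * 41) ≤ 41 ^ 6 := by
    norm_num [Nat.choose]
  calc _ ≤ (Nat.choose 41 3 * (243 * 41 ^ (n - 6))) * (4 * 6 * 41) := Nat.mul_le_mul_right _ h1
    _ = (Nat.choose 41 3 * 243 * (4 * 6 * 41)) * 41 ^ (n - 6) := by ring
    _ ≤ 41 ^ 6 * 41 ^ (n - 6) := Nat.mul_le_mul_right _ h2
    _ = 41 ^ n := by rw [← pow_add]; congr 1; omega

theorem numM3 : ∀ s ∈ Finset.Icc 30 121, 291 * 66 ^ s ≤ 1000 * s * (66 - 1) ^ (s - 1) := by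
  decide +kernel

theorem numL3 : ∀ s ∈ Finset.Icc 107 334, 314 * 200 ^ s ≤ 1000 * s * (200 - 1) ^ (s - 1) := by
  decide +kernel

theorem numE3 : ∀ r ∈ Finset.Icc 7 29,
    4 * Nat.factorial r * 20 ^ r * 11184 ^ 41 * (r * 41) ≤ 9 ^ r * 10000 ^ 41 * 41 ^ r := by
  decide +kernel

theorem exp_c : Real.exp (9 / 20) - 9 / 20 ≤ 11184 / 10000 := by
  have h := Real.exp_bound' (x := 9 / 20) (by norm_num) (by norm_num) (n := 6) (by norm_num)
  have h2 : (∑ m ∈ Finset.range 6, ((9 : ℝ) / 20) ^ m / (m.factorial : ℝ)) +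
      ((9 : ℝ) / 20) ^ 6 * ((6 : ℕ) + 1) / ((Nat.factorial 6 : ℝ) * (6 : ℕ)) ≤ 15684 / 10000 := by
    norm_num [Finset.sum_range_succ, Nat.factorial]
  have := h.trans h2
  linarith

theorem good_5' : Good 5 41 :=
  good_tiny 41 5 (by norm_num) (by norm_num) (by norm_num) (by decide +kernel)

theorem good_7' (r : ℕ) (h1 : 7 ≤ r) (h2 : r ≤ 29) : Good r 41 := by
  refine good_egf 41 r (by norm_num) (by omega) (9 / 20) (11184 / 10000) (by norm_num) exp_c ?_
  have h := numE3 r (Finset.mem_Icc.2 ⟨h1, h2⟩)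
  have h' : (4 : ℝ) * (Nat.factorial r : ℝ) * 20 ^ r * 11184 ^ 41 * ((r : ℝ) * 41)
      ≤ 9 ^ r * 10000 ^ 41 * 41 ^ r := by exact_mod_cast h
  push_cast
  rw [div_pow, div_pow]
  have e1 : 4 * ((r.factorial : ℝ) / ((9 : ℝ) ^ r / 20 ^ r) * ((11184 : ℝ) ^ 41 / 10000 ^ 41) /
      (41 : ℝ) ^ r) * ((r : ℝ) * 41)
      = (4 * (r.factorial : ℝ) * 20 ^ r * 11184 ^ 41 * ((r : ℝ) * 41)) /
        (9 ^ r * 10000 ^ 41 * 41 ^ r) := by
    field_simp
  rw [e1, div_le_one (by positivity)]
  exact h'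

theorem good_mid3 {n : ℕ} (E : Finset (Finset (Fin n))) (hD : DegLe E 41) (S0 : Finset (Fin n))
    (hsz : ∀ e ∈ E, 107 ≤ (e ∩ S0).card ∧ (e ∩ S0).card ≤ 334) :
    ∃ c : Fin n → Fin 41, IsCF E c :=
  good_of_sizes2 40 19 E hD S0 107 334 200 (by norm_num) (by norm_num) (by norm_num) (by norm_num)
    (by norm_num) hsz 314 numL3 (6876 / 10000) (by norm_num) (by norm_num) (by norm_num)

theorem good_midM3 (r : ℕ) (h1 : 30 ≤ r) (h2 : r ≤ 121) : Good r 41 := by
  intro n E hU hD
  exact good_of_sizes2 40 11 E hD Finset.univ 30 121 66 (by norm_num) (by norm_num) (by norm_num)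
    (by norm_num) (by norm_num)
    (fun e he => by rw [Finset.inter_univ, hU e he]; exact ⟨h1, h2⟩)
    291 numM3 (7135 / 10000) (by norm_num) (by norm_num) (by norm_num)

theorem good_41 (r : ℕ) (hr : 5 ≤ r) : Good r 41 := by
  by_cases h0 : r = 5
  · subst h0; exact good_5'
  by_cases h00 : r = 6
  · subst h00; exact good_6'
  by_cases h1 : r ≤ 29
  · exact good_7' r (by omega) h1
  by_cases h2 : r ≤ 121
  · exact good_midM3 r (by omega) h2
  by_cases h3 : r ≤ 334
  · intro n E hU hD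
    exact good_mid3 E hD Finset.univ (fun e he => by
      rw [Finset.inter_univ, hU e he]; omega)
  intro n E hU hD
  obtain ⟨j, hj1, hj2⟩ : ∃ j, 147 * 2 ^ j ≤ r ∧ r < 294 * 2 ^ j := by
    refine ⟨Nat.log 2 (r / 147), ?_, ?_⟩
    · have h1 : 2 ^ Nat.log 2 (r / 147) ≤ r / 147 := Nat.pow_log_le_self 2 (by omega)
      omega
    · have h1 : r / 147 < 2 ^ (Nat.log 2 (r / 147) + 1) := Nat.lt_pow_succ_log_self (by norm_num) _
      rw [pow_succ] at h1
      omega
  obtain ⟨f, hf, hf'⟩ := split E 41 hD j Finset.univ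
  have hM1 : 1 ≤ 2 ^ j := Nat.one_le_two_pow
  set M := 2 ^ j with hMdef
  refine good_mid3 E hD (Finset.univ.filter (fun v => f v = 0)) ?_
  intro e he
  obtain ⟨h4, h5⟩ := hf' e he 0 (by omega)
  rw [Finset.inter_univ, hU e he] at h4 h5
  obtain ⟨M', hM'⟩ : ∃ M', M = M' + 1 := ⟨M - 1, by omega⟩
  have e1 : M - 1 = M' := by omega
  rw [e1] at h4 h5
  constructor
  · by_contra hlt
    push Not at hlt
    have : M * (e ∩ Finset.univ.filter (fun v => f v = 0)).card ≤ M * 106 :=
      Nat.mul_le_mul_left _ (by omega)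
    omega
  · by_contra hlt
    push Not at hlt
    have : M * 335 ≤ M * (e ∩ Finset.univ.filter (fun v => f v = 0)).card :=
      Nat.mul_le_mul_left _ (by omega)
    omega

end Pool.Agent.H762R3.CF
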